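import Pool.Agent.Helper6.CX.Goals

/-!
Project CX (MP_75608d_al): packet ESC.
-/

namespace Pool.Agent.Helper81.CX.ESC

open Equiv
open Pool.Agent.Helper6.CX

theorem rot_val {n : ℕ} (i : ℕ) (r : Fin n) : (((finRotate n) ^ i) r).val = (r.val + i) % n := by
  obtain _ | m := n
  · exact r.elim0
  induction i with
  | zero =>
    rw [pow_zero, Perm.one_apply, add_zero, Nat.mod_eq_of_lt r.2]
  | succ i ih =>
    rw [pow_succ', Perm.mul_apply, finRotate_apply, Fin.val_add, ih]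
    rcases Nat.eq_zero_or_pos m with hm | hm
    · subst hm
      rw [Nat.mod_one, Nat.mod_one]
    · have h1 : ((1 : Fin (m + 1)) : ℕ) = 1 := by
        have h0 : ((1 : Fin (m + 1)) : ℕ) = 1 % (m + 1) := rfl
        rw [h0]
        exact Nat.mod_eq_of_lt (by omega)
      rw [h1, Nat.mod_add_mod, ← add_assoc]

/-- gadget points -/
def IsG {n b : ℕ} (p q : Fin b → Fin n) (r : Fin n) : Prop := ∃ k, r = p k ∨ r = q k

theorem fwd {n b : ℕ} {p q : Fin b → Fin n} (hg : ∀ r, (∀ i, r ≠ p i ∧ r ≠ q i) → gad p q r = r)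
    (r : Fin n) (i : ℕ) (h : ∀ i' < i, ¬ IsG p q (((finRotate n) ^ i') r)) :
    ((finRotate n * gad p q) ^ i) r = ((finRotate n) ^ i) r := by
  induction i with
  | zero => rfl
  | succ i ih =>
    have h1 := ih fun i' hi' => h i' (by omega)
    have h2 := h i (Nat.lt_succ_self i)
    rw [pow_succ', pow_succ', Perm.mul_apply, Perm.mul_apply, Perm.mul_apply, h1, hg]
    intro k
    exact ⟨fun e => h2 ⟨k, Or.inl e⟩, fun e => h2 ⟨k, Or.inr e⟩⟩

theorem bwd {n b : ℕ} {p q : Fin b → Fin n} (hg : ∀ r, (∀ i, r ≠ p i ∧ r ≠ q i) → gad p q r = r)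
    (r : Fin n) (i : ℕ) (h : ∀ i', 1 ≤ i' → i' ≤ i → ¬ IsG p q (((finRotate n)⁻¹ ^ i') r)) :
    ((finRotate n * gad p q)⁻¹ ^ i) r = ((finRotate n)⁻¹ ^ i) r := by
  induction i with
  | zero => rfl
  | succ i ih =>
    have h1 := ih fun i' h0 hi' => h i' h0 (by omega)
    have h2 := h (i + 1) (by omega) le_rfl
    rw [pow_succ', Perm.mul_apply, h1, mul_inv_rev, Perm.mul_apply]
    have h3 : (finRotate n)⁻¹ (((finRotate n)⁻¹ ^ i) r) = ((finRotate n)⁻¹ ^ (i + 1)) r := by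
      rw [pow_succ', Perm.mul_apply]
    rw [h3, Perm.inv_eq_iff_eq, hg]
    intro k
    exact ⟨fun e => h2 ⟨k, Or.inl e⟩, fun e => h2 ⟨k, Or.inr e⟩⟩

theorem pair {n b G : ℕ} {p q : Fin b → Fin n} (hs : Spread G p q) {x y : Fin n} {j : ℕ}
    (hj1 : 1 ≤ j) (hj : j < G) (hxy : ((finRotate n) ^ j) x = y) (hx : IsG p q x)
    (hy : IsG p q y) : ∃ k, x = p k ∧ y = q k := by
  obtain ⟨k, hk⟩ := hx
  obtain ⟨l, hl⟩ := hy
  obtain ⟨hs1, hs2⟩ := hs
  have h1 := hs1 k
  have h2 := hs1 l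
  have hxk : (p k).val ≤ x.val ∧ x.val ≤ (q k).val := by
    rcases hk with rfl | rfl <;> omega
  have hyl : (p l).val ≤ y.val ∧ y.val ≤ (q l).val := by
    rcases hl with rfl | rfl <;> omega
  have hv : y.val = x.val + j := by
    rw [← hxy, rot_val, Nat.mod_eq_of_lt (by omega)]
  rcases lt_trichotomy k l with h | h | h
  · have := hs2 k l h
    omega
  · subst h
    refine ⟨k, ?_, ?_⟩
    · rcases hk with hk | hk
      · exact hk
      · exfalso
        have : x.val = (q k).val := by rw [hk]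
        omega
    · rcases hl with hl | hl
      · exfalso
        have : y.val = (p k).val := by rw [hl]
        omega
      · exact hl
  · have := hs2 l k h
    omega

theorem back {n b R : ℕ} {p q : Fin b → Fin n} {D : Fin n → Prop}
    (hg : ∀ r, (∀ i, r ≠ p i ∧ r ≠ q i) → gad p q r = r)
    (hD : ∀ r : Fin n, ∃ i < R, D (((finRotate n) ^ i) r)) (r : Fin n)
    (h : ∀ i', 1 ≤ i' → i' ≤ R → ¬ IsG p q (((finRotate n)⁻¹ ^ i') r)) :
    ∃ i < R + 1, D (((finRotate n * gad p q)⁻¹ ^ i) r) := by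
  obtain ⟨i, hi, hDi⟩ := hD (((finRotate n)⁻¹ ^ R) r)
  refine ⟨R - i, by omega, ?_⟩
  rw [bwd hg r (R - i) fun i' h1 h2 => h i' h1 (by omega)]
  have e : ((finRotate n) ^ i) (((finRotate n)⁻¹ ^ R) r) = ((finRotate n)⁻¹ ^ (R - i)) r := by
    rw [← Perm.mul_apply]
    congr 1
    have hR : R = i + (R - i) := by omega
    have h3 : (finRotate n)⁻¹ ^ R = (finRotate n)⁻¹ ^ i * (finRotate n)⁻¹ ^ (R - i) := by
      rw [← pow_add, ← hR]
    rw [h3, ← mul_assoc, inv_pow (finRotate n) i, mul_inv_cancel, one_mul]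
  rwa [← e]

theorem thm (hgad : S_GAD) : S_ESC := by
  intro n b G R p q D hs hR hG hD r
  obtain ⟨-, -, -, hfix, -⟩ := hgad n b G p q (by omega) hs
  by_cases hA : ∀ i < R, ¬ IsG p q (((finRotate n) ^ i) r)
  · left
    obtain ⟨i, hi, hDi⟩ := hD r
    refine ⟨i, by omega, ?_⟩
    rw [fwd hfix r i fun i' hi' => hA i' (by omega)]
    exact hDi
  right
  by_cases hB : ∀ i', 1 ≤ i' → i' ≤ R → ¬ IsG p q (((finRotate n)⁻¹ ^ i') r)
  · left
    exact back hfix hD r hB
  right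
  push Not at hA hB
  classical
  obtain ⟨j, hj1, hj2, hj⟩ := hB
  have hex : ∃ i, i < R ∧ IsG p q (((finRotate n) ^ i) r) := hA
  have hi := Nat.find_spec hex
  have hmin : ∀ i' < Nat.find hex, ¬ IsG p q (((finRotate n) ^ i') r) := by
    intro i' h1 h2
    exact Nat.find_min hex h1 ⟨h1.trans hi.1, h2⟩
  set i := Nat.find hex
  have e : ((finRotate n) ^ (i + j)) (((finRotate n)⁻¹ ^ j) r) = ((finRotate n) ^ i) r := by
    rw [pow_add, Perm.mul_apply, ← Perm.mul_apply ((finRotate n) ^ j), inv_pow, mul_inv_cancel,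
      Perm.one_apply]
  obtain ⟨k, -, hk⟩ := pair hs (by omega) (by omega) e hj hi.2
  refine ⟨i, by omega, k, ?_, ?_⟩
  · rw [fwd hfix r i hmin, hk]
  · refine back hfix hD (p k) ?_
    intro i' h1 h2 h3
    have e2 : ((finRotate n) ^ i') (((finRotate n)⁻¹ ^ i') (p k)) = p k := by
      rw [← Perm.mul_apply, inv_pow, mul_inv_cancel, Perm.one_apply]
    obtain ⟨l, hl1, hl2⟩ := pair hs h1 (by omega) e2 h3 ⟨k, Or.inl rfl⟩
    obtain ⟨hs1, hs2⟩ := hs
    have h4 := hs1 l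
    have h5 := hs1 k
    have h6 : (p k).val = (q l).val := by rw [hl2]
    rcases lt_trichotomy k l with h | h | h
    · have := hs2 k l h
      omega
    · subst h
      omega
    · have := hs2 l k h
      omega

end Pool.Agent.Helper81.CX.ESC
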