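import Pool.Agent.Helper6.CX.Goals

/-!
Project CX (MP_75608d_al): packet UNI.
-/

namespace Pool.Agent.Helper81.CX.UNI

open Equiv
open Pool.Agent.Helper6.CX
open Pool.Agent.Helper15.Pair (IsLen)

theorem ab_image {n : ℕ} {L : Perm (Fin n) → ℝ} (hL : IsLen L) {d : ℝ} {S : Finset (Fin n)}
    (hS : AB L d S) (h : Perm (Fin n)) : AB L (d + 2 * L h) (S.image (h⁻¹ : Perm (Fin n))) := by
  intro g hg hs
  have h1 : Perm.sign (h * g * h⁻¹) = 1 := by
    rw [map_mul, map_mul, hg, Perm.sign_inv, mul_one]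
    exact Int.units_mul_self _
  have h2 : (h * g * h⁻¹).support ⊆ S := by
    intro x hx
    rw [Perm.mem_support] at hx
    have h3 : (h⁻¹ : Perm (Fin n)) x ∈ g.support := by
      rw [Perm.mem_support]
      intro h4
      apply hx
      rw [Perm.mul_apply, Perm.mul_apply, h4]
      exact h.apply_symm_apply x
    obtain ⟨s, hsS, hse⟩ := Finset.mem_image.1 (hs h3)
    rwa [← (h⁻¹ : Perm (Fin n)).injective hse]
  have h3 := hL.of_conj h g
  have h4 := hS _ h1 h2
  linarith

theorem ab_mono {n : ℕ} {L : Perm (Fin n) → ℝ} {d d' : ℝ} {S : Finset (Fin n)}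
    (hS : AB L d S) (h : d ≤ d') : AB L d' S := fun g hg hs => (hS g hg hs).trans h

theorem cover_aux {n : ℕ} {L : Perm (Fin n) → ℝ} (hL : IsLen L) {d D : ℝ} {S : Finset (Fin n)}
    (hS : AB L d S) (hn : 40 ≤ n) (h9 : 9 * n ≤ 10 * S.card) {I : Type} [DecidableEq I]
    (h : I → Perm (Fin n)) (hD : ∀ i, d + 2 * L (h i) ≤ D) (hd : d ≤ D) (hD0 : 0 ≤ D)
    (s : Finset I) :
    AB L (3 ^ s.card * D) (S ∪ s.biUnion fun i => S.image ((h i)⁻¹ : Perm (Fin n))) := by
  induction s using Finset.induction_on with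
  | empty =>
    simp only [Finset.card_empty, pow_zero, one_mul, Finset.biUnion_empty, Finset.union_empty]
    exact ab_mono hS hd
  | insert i s hi ih =>
    set X : Finset (Fin n) := S ∪ s.biUnion fun i => S.image ((h i)⁻¹ : Perm (Fin n)) with hX
    set Y : Finset (Fin n) := S.image ((h i)⁻¹ : Perm (Fin n)) with hY
    have hYc : Y.card = S.card := Finset.card_image_of_injective _ (h i)⁻¹.injective
    have hc1 : (Y \ X).card + S.card ≤ n := by
      have h1 : Disjoint (Y \ X) S := by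
        rw [Finset.disjoint_left]
        intro x hx hxS
        exact (Finset.mem_sdiff.1 hx).2 (Finset.mem_union_left _ hxS)
      rw [← Finset.card_union_of_disjoint h1]
      exact (Finset.card_le_univ _).trans (by simp)
    have hc2 : (Y \ X).card + (X ∩ Y).card = Y.card := by
      rw [Finset.inter_comm]
      exact Finset.card_sdiff_add_card_inter Y X
    have hY1 : AB L D Y := ab_mono (ab_image hL hS (h i)) (hD i)
    intro g hg hs
    have h2 := Pool.Agent.H29.Pair.union_step L hL.mul X Y (3 ^ s.card * D) D (by omega) ih hY1 g hg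
      (by
        intro x hx
        have h3 := hs hx
        rw [Finset.biUnion_insert, ← hY, Finset.mem_union, Finset.mem_union] at h3
        rw [Finset.mem_union, hX, Finset.mem_union]
        tauto)
    rw [Finset.card_insert_of_notMem hi, pow_succ]
    have h4 : D ≤ 3 ^ s.card * D := by
      have : (1 : ℝ) ≤ 3 ^ s.card := one_le_pow₀ (by norm_num)
      nlinarith
    linarith

/-- the short words -/
def word {n : ℕ} (R : ℕ) (X u : Perm (Fin n)) :
    Fin R ⊕ (Fin R ⊕ (Fin R × Fin R)) → Perm (Fin n)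
  | Sum.inl i => X ^ (i : ℕ)
  | Sum.inr (Sum.inl i) => X⁻¹ ^ (i : ℕ)
  | Sum.inr (Sum.inr (i, i')) => X⁻¹ ^ (i' : ℕ) * u * X ^ (i : ℕ)

theorem thm : S_UNI := by
  intro R
  refine ⟨3 ^ (Fintype.card (Fin R ⊕ (Fin R ⊕ (Fin R × Fin R)))) * (4 * R + 2), by positivity, ?_⟩
  intro n b L X u d S D p q hL hS hn h9 hDS hu hr g hg
  have hd0 : 0 ≤ d := by
    have := hS 1 (by simp) (by simp)
    rwa [hL.one] at this
  have hX0 := hL.nonneg X
  have hu0 := hL.nonneg u
  have hRX : ∀ i : Fin R, ((i : ℕ) : ℝ) * L X ≤ R * L X := fun i =>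
    mul_le_mul_of_nonneg_right (by exact_mod_cast i.2.le) hX0
  have hRX0 : 0 ≤ (R : ℝ) * L X := mul_nonneg (Nat.cast_nonneg _) hX0
  have hw : ∀ i, L (word R X u i) ≤ 2 * R * L X + L u := by
    rintro (i | i | ⟨i, i'⟩)
    · change L (X ^ (i : ℕ)) ≤ _
      have h1 := hL.pow X i
      have h2 := hRX i
      linarith
    · change L (X⁻¹ ^ (i : ℕ)) ≤ _
      have h1 := hL.pow X⁻¹ i
      rw [hL.inv] at h1
      have h2 := hRX i
      linarith
    · change L (X⁻¹ ^ (i' : ℕ) * u * X ^ (i : ℕ)) ≤ _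
      have h1 := hL.pow X⁻¹ i'
      rw [hL.inv] at h1
      have h2 := hRX i
      have h3 := hRX i'
      have h4 := hL.pow X i
      have h5 := hL.mul (X⁻¹ ^ (i' : ℕ) * u) (X ^ (i : ℕ))
      have h6 := hL.mul (X⁻¹ ^ (i' : ℕ)) u
      linarith
  have h1 := cover_aux hL hS hn h9 (word R X u) (D := d + 4 * R * L X + 2 * L u)
    (fun i => by have := hw i; linarith) (by nlinarith) (by nlinarith) Finset.univ g hg (by
      intro r _
      rw [Finset.mem_union, Finset.mem_biUnion]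
      right
      have key : ∀ i, word R X u i r ∈ S → ∃ a ∈ Finset.univ,
          r ∈ S.image ((word R X u a)⁻¹ : Perm (Fin n)) := by
        intro i hi
        refine ⟨i, Finset.mem_univ _, ?_⟩
        rw [Finset.mem_image]
        exact ⟨_, hi, (word R X u i).symm_apply_apply r⟩
      rcases hr r with ⟨i, hi, h⟩ | ⟨i, hi, h⟩ | ⟨i, hi, k, hk, i', hi', h⟩
      · exact key (Sum.inl ⟨i, hi⟩) (hDS _ h)
      · exact key (Sum.inr (Sum.inl ⟨i, hi⟩)) (hDS _ h)
      · refine key (Sum.inr (Sum.inr (⟨i, hi⟩, ⟨i', hi'⟩))) ?_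
        change (X⁻¹ ^ i' * u * X ^ i) r ∈ S
        rw [Perm.mul_apply, Perm.mul_apply, hk, hu]
        exact hDS _ h)
  rw [Finset.card_univ] at h1
  refine h1.trans ?_
  have hR0 : (0 : ℝ) ≤ R := Nat.cast_nonneg _
  have h2 : d + 4 * R * L X + 2 * L u ≤ (4 * R + 2) * (d + L X + L u) := by
    nlinarith [mul_nonneg hR0 hd0, mul_nonneg hR0 hu0]
  have h3 : (0 : ℝ) ≤ 3 ^ Fintype.card (Fin R ⊕ (Fin R ⊕ (Fin R × Fin R))) :=
    pow_nonneg (by norm_num) _
  have h4 := mul_le_mul_of_nonneg_left h2 h3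
  linarith

end Pool.Agent.Helper81.CX.UNI
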